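import Pool.Agent.V11231.IXF.Defs

/-! With reliable negations two cells suffice. -/

set_option autoImplicit false
set_option linter.unusedSectionVars false
set_option linter.unusedVariables false

namespace Pool.Agent.V11231.IXF

open Finset Pool.Agent.V11231.FLT

lemma lit_le_lit {E : Type} {x x' : E → Bool} (h : literals x ∅ ≤ literals x' ∅) : x = x' := by
  funext e
  have h1 := h (e, true)
  have h2 := h (e, false)
  unfold literals at h1 h2
  rw [if_pos rfl, if_pos rfl] at h1
  have h3 : (!x e) ≤ (!x' e) := by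
    simpa using h2
  clear h2
  dsimp only at h1
  revert h1 h3
  cases x e <;> cases x' e <;> simp

open Classical in
/-- With reliable negations two cells, both of which are read, suffice for everything. -/
theorem two_cells (U : ℕ) : ∃ C : LiteralIndex U 2 0, C.Fast 2 ∧
    ∀ (x : Bool × Fin U → Bool) (z : ℤ), C.Yes x ∅ z ↔ Represented x z := by
  obtain ⟨e, he⟩ : ∃ e : (Bool × Fin U → Bool) → ℕ, e = fun x => (Fintype.equivFin _ x : ℕ) :=
    ⟨_, rfl⟩
  obtain ⟨T, hT⟩ : ∃ T : ℕ, T = Fintype.card (Bool × Fin U → Bool) := ⟨_, rfl⟩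
  have heT : ∀ x, e x < T := by
    intro x
    rw [he, hT]
    exact Fin.isLt _
  have hinj : ∀ x x', e x = e x' → x = x' := by
    intro x x' h
    rw [he] at h
    exact (Fintype.equivFin _).injective (Fin.ext h)
  obtain ⟨F, hF⟩ : ∃ F : ((Bool × Fin U) × Bool → Bool) → Finset (Bool × Fin U → Bool),
      F = fun y => univ.filter fun x => literals x ∅ ≤ y := ⟨_, rfl⟩
  have hFm : ∀ y y', y ≤ y' → F y ⊆ F y' := by
    intro y y' h x hx
    rw [hF] at hx ⊢
    simp only [mem_filter, mem_univ, true_and] at hx ⊢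
    exact hx.trans h
  have hF1 : ∀ x, F (literals x ∅) = {x} := by
    intro x
    rw [hF]
    ext x'
    simp only [mem_filter, mem_univ, true_and, mem_singleton]
    exact ⟨fun h => lit_le_lit h, fun h => by rw [h]⟩
  refine ⟨{
    cell := fun c y => if c = 0 then (((F y).sup fun x => e x + 1 : ℕ) : ℝ)
      else (((F y).sup fun x => T - e x : ℕ) : ℝ)
    cell_mono := ?_
    free1 := fun c => c.elim0
    free1_mono := fun c => c.elim0
    free2 := fun c => c.elim0
    free2_mono := fun c => c.elim0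
    reads := fun _ _ => univ
    accept := fun z M => ∃ x, Represented x z ∧ ((e x + 1 : ℕ) : ℝ) ≤ M (Sum.inl 0) ∧
      ((T - e x : ℕ) : ℝ) ≤ M (Sum.inl 1)
    accept_mono := ?_
    accept_reads := ?_ }, ?_, ?_⟩
  · intro c y y' h
    show (if c = 0 then (((F y).sup fun x => e x + 1 : ℕ) : ℝ)
      else (((F y).sup fun x => T - e x : ℕ) : ℝ)) ≤ (if c = 0 then
        (((F y').sup fun x => e x + 1 : ℕ) : ℝ) else (((F y').sup fun x => T - e x : ℕ) : ℝ))
    split_ifs
    · exact_mod_cast Finset.sup_mono (hFm y y' h)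
    · exact_mod_cast Finset.sup_mono (hFm y y' h)
  · rintro z M M' h ⟨x, h1, h2, h3⟩
    exact ⟨x, h1, h2.trans (h _), h3.trans (h _)⟩
  · intro z M M' h
    have h1 : M' = M := funext fun c => h c (mem_univ _)
    rw [h1]
  · intro x Z z
    show (univ : Finset (Fin 2 ⊕ Fin 0 ⊕ Fin 0)).card ≤ 2
    simp
  · intro x z
    show (∃ x', Represented x' z ∧ ((e x' + 1 : ℕ) : ℝ) ≤
      (if (0 : Fin 2) = 0 then (((F (literals x ∅)).sup fun x => e x + 1 : ℕ) : ℝ)
        else (((F (literals x ∅)).sup fun x => T - e x : ℕ) : ℝ)) ∧ ((T - e x' : ℕ) : ℝ) ≤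
      (if (1 : Fin 2) = 0 then (((F (literals x ∅)).sup fun x => e x + 1 : ℕ) : ℝ)
        else (((F (literals x ∅)).sup fun x => T - e x : ℕ) : ℝ))) ↔ Represented x z
    rw [hF1, if_pos rfl, if_neg (by decide), Finset.sup_singleton, Finset.sup_singleton]
    constructor
    · rintro ⟨x', h1, h2, h3⟩
      have h4 : e x' + 1 ≤ e x + 1 := by exact_mod_cast h2
      have h5 : T - e x' ≤ T - e x := by exact_mod_cast h3
      have h6 := heT x
      have h7 := heT x'
      have h8 : x' = x := hinj _ _ (by omega)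
      rw [← h8]
      exact h1
    · intro h
      exact ⟨x, h, le_refl _, le_refl _⟩

end Pool.Agent.V11231.IXF
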