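import Pool.Agent.V11231.OMF.Thick
import Pool.Agent.V11231.SMF.Count
import Pool.Agent.H525R4.Mono.SumLower

/-! Data structures for 3SUM-Indexing whose cells are computed with unreliable negations. -/

set_option autoImplicit false
set_option linter.unusedSectionVars false
set_option linter.unusedVariables false

namespace Pool.Agent.V11231.IXF

open Finset Pool.Agent.V11231.FLT Pool.Agent.V11231.VCF
open Pool.Agent.H525R4.Mono (Place SumDS IsSum SumSolves)

/-- A data structure for two sets of numbers below `U`, given by their presence bits: the bit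
`(false, e)` says whether `e` is in the first set and the bit `(true, e)` says whether `e` is in the
second set. The literal `((a, e), true)` is the bit `(a, e)` and the literal `((a, e), false)` is its
negation. Each of the `s` cells contains a nondecreasing real function of the values of all
literals; each of the `r + r` free cells contains a nondecreasing real function of the values of the
literals of one of the two sets. The query `z` reads the places `reads z M` if `M` is the contents
of the memory (adaptively), and the answer is yes iff `accept z M`, a condition that is nondecreasing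
in `M` and is determined by the contents of the places read. -/
structure LiteralIndex (U s r : ℕ) where
  cell : Fin s → ((Bool × Fin U) × Bool → Bool) → ℝ
  cell_mono : ∀ c, Monotone (cell c)
  free1 : Fin r → (Fin U × Bool → Bool) → ℝ
  free1_mono : ∀ c, Monotone (free1 c)
  free2 : Fin r → (Fin U × Bool → Bool) → ℝ
  free2_mono : ∀ c, Monotone (free2 c)
  reads : ℤ → (Fin s ⊕ Fin r ⊕ Fin r → ℝ) → Finset (Fin s ⊕ Fin r ⊕ Fin r)
  accept : ℤ → (Fin s ⊕ Fin r ⊕ Fin r → ℝ) → Prop
  accept_mono : ∀ z M M', M ≤ M' → accept z M → accept z M'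
  accept_reads : ∀ z M M', (∀ c ∈ reads z M, M' c = M c) → (accept z M' ↔ accept z M)

/-- The contents of the memory for the values `y` of the literals. -/
def LiteralIndex.mem {U s r : ℕ} (C : LiteralIndex U s r) (y : (Bool × Fin U) × Bool → Bool) :
    Fin s ⊕ Fin r ⊕ Fin r → ℝ
  | .inl c => C.cell c y
  | .inr (.inl c) => C.free1 c fun p => y ((false, p.1), p.2)
  | .inr (.inr c) => C.free2 c fun p => y ((true, p.1), p.2)

/-- The answer to the query `z` is yes for the sets with the presence bits `x`, if the negated bits
in `Z` are stuck at `0`. -/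
def LiteralIndex.Yes {U s r : ℕ} (C : LiteralIndex U s r) (x : Bool × Fin U → Bool)
    (Z : Set (Bool × Fin U)) (z : ℤ) : Prop :=
  C.accept z (C.mem (literals x Z))

/-- At most `t` places are read, for all sets, all faults and all queries. -/
def LiteralIndex.Fast {U s r : ℕ} (C : LiteralIndex U s r) (t : ℕ) : Prop :=
  ∀ (x : Bool × Fin U → Bool) (Z : Set (Bool × Fin U)) (z : ℤ),
    (C.reads z (C.mem (literals x Z))).card ≤ t

/-- The probability of the answer yes for a data structure that is chosen uniformly at random from
the family `C`, without faults. -/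
noncomputable def yesProb {U s r : ℕ} {R : Type} (C : R → LiteralIndex U s r)
    (x : Bool × Fin U → Bool) (z : ℤ) : ℝ :=
  (Nat.card {ρ : R // (C ρ).Yes x ∅ z} : ℝ) / Nat.card R

/-- The probability of the answer yes for a data structure that is chosen uniformly at random from
the family `C`, if each negated bit is stuck at `0` independently with probability `1 / D` (each bit
`e` gets a random number `f e` from `0` to `D - 1`, and `0` means a fault). -/
noncomputable def faultyYesProb {U s r : ℕ} {R : Type} (C : R → LiteralIndex U s r) (D : ℕ)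
    (x : Bool × Fin U → Bool) (z : ℤ) : ℝ :=
  (Nat.card {v : R × (Bool × Fin U → Fin D) // (C v.1).Yes x {e | (v.2 e : ℕ) = 0} z} : ℝ) /
    Nat.card (R × (Bool × Fin U → Fin D))

/-- Both sets have at most `n` elements. -/
def Small {U : ℕ} (n : ℕ) (x : Bool × Fin U → Bool) : Prop :=
  ∀ a : Bool, (univ.filter fun e : Fin U => x (a, e) = true).card ≤ n

/-- `z` is the sum of an element of the first set and an element of the second set. -/
def Represented {U : ℕ} (x : Bool × Fin U → Bool) (z : ℤ) : Prop :=
  ∃ a b : Fin U, x (false, a) = true ∧ x (true, b) = true ∧ ((a : ℕ) : ℤ) + ((b : ℕ) : ℤ) = z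

lemma mem_mono {U s r : ℕ} (C : LiteralIndex U s r) : Monotone C.mem := by
  intro y y' h c
  rcases c with c | c | c
  · exact C.cell_mono c h
  · exact C.free1_mono c fun p => h _
  · exact C.free2_mono c fun p => h _

section lit

variable {E : Type} {D : ℕ}

open Classical in
lemma mix_eq_true (S : Set E) (f : E → Fin D) (e : E) :
    mix S (fun _ => false) f e = true ↔ e ∈ S ∧ (f e : ℕ) = 0 := by
  unfold mix
  by_cases h : e ∈ S
  · rw [if_pos h, decide_eq_true_eq]
    exact ⟨fun h1 => ⟨h, h1⟩, fun h1 => h1.2⟩
  · rw [if_neg h]
    simp [h]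

lemma lit_eq_true (S : Set E) (f : E → Fin D) (e : E) :
    literals (mix S (fun _ => false) f) (flt f) (e, true) = true ↔ e ∈ S ∧ (f e : ℕ) = 0 := by
  unfold literals
  rw [if_pos rfl]
  exact mix_eq_true S f e

lemma lit_neg_true (S : Set E) (f : E → Fin D) (e : E) :
    literals (mix S (fun _ => false) f) (flt f) (e, false) = true ↔ (f e : ℕ) ≠ 0 := by
  unfold literals
  rw [if_neg (by simp)]
  by_cases hf : (f e : ℕ) = 0
  · have h2 : e ∈ flt f := hf
    rw [if_pos h2]
    simp [hf]
  · have h2 : e ∉ flt f := hf
    rw [if_neg h2]
    have h3 : mix S (fun _ => false) f e = false := by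
      rw [Bool.eq_false_iff]
      intro h4
      exact hf ((mix_eq_true S f e).mp h4).2
    simp [h3, hf]

lemma lit_mono {S S' : Set E} (h : S ⊆ S') (f : E → Fin D) :
    literals (mix S (fun _ => false) f) (flt f) ≤ literals (mix S' (fun _ => false) f) (flt f) := by
  rintro ⟨e, b⟩
  rw [Bool.le_iff_imp]
  cases b
  · rw [lit_neg_true, lit_neg_true]
    exact id
  · rw [lit_eq_true, lit_eq_true]
    exact fun h1 => ⟨h h1.1, h1.2⟩

lemma lit_congr {S S' : Set E} (f : E → Fin D) (e : E) (b : Bool) (h : e ∈ S ↔ e ∈ S') :
    literals (mix S (fun _ => false) f) (flt f) (e, b) =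
      literals (mix S' (fun _ => false) f) (flt f) (e, b) := by
  rw [Bool.eq_iff_iff]
  cases b
  · rw [lit_neg_true, lit_neg_true]
  · rw [lit_eq_true, lit_eq_true, h]

end lit

section thick

variable {E R : Type} [Fintype E] [DecidableEq E] [Fintype R] [Nonempty R]

open Classical in
/-- **Rejection** of most inputs. -/
lemma thick_rej2 {D : ℕ} (hD : 0 < D) (A : R → (E × Bool → Bool) → Prop)
    (hA : ∀ r y z, y ≤ z → A r y → A r z) (S : Set E) (base : E → Bool)
    (good : (E → Fin D) → Prop)
    (hbad : ((univ.filter fun f : E → Fin D => ¬ good f).card : ℝ) ≤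
      1 / 20 * (D : ℝ) ^ Fintype.card E)
    (h : ∀ f : E → Fin D, good f →
      ((univ.filter fun ρ : R => A ρ (literals (mix S base f) ∅)).card : ℝ) ≤
      1 / 4 * (Fintype.card R : ℝ)) :
    ((univ.filter fun v : R × (E → Fin D) =>
        A v.1 (literals (mix S base v.2) (flt v.2))).card : ℝ) ≤
      3 / 10 * (Fintype.card (R × (E → Fin D)) : ℝ) := by
  have hR : (0 : ℝ) < Fintype.card R := by exact_mod_cast Fintype.card_pos
  have hcard : (Fintype.card (E → Fin D) : ℝ) = (D : ℝ) ^ Fintype.card E := by
    rw [Fintype.card_fun, Fintype.card_fin]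
    push_cast
    rfl
  set T : Finset (R × (E → Fin D)) :=
    univ.filter fun v => A v.1 (literals (mix S base v.2) (flt v.2)) with hT
  have h1 : T.card = ∑ f : E → Fin D, (T.filter fun w => w.2 = f).card :=
    Finset.card_eq_sum_card_fiberwise (fun w _ => Finset.mem_coe.mpr (Finset.mem_univ _))
  have h2 : ∀ f : E → Fin D, ((T.filter fun w => w.2 = f).card : ℝ) ≤
      1 / 4 * (Fintype.card R : ℝ) + (if good f then 0 else (Fintype.card R : ℝ)) := by
    intro f
    by_cases hf : good f
    · rw [if_pos hf, add_zero]
      refine le_trans ?_ (h f hf)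
      have h5 : (T.filter fun w => w.2 = f).card ≤
          (univ.filter fun ρ : R => A ρ (literals (mix S base f) ∅)).card := by
        refine Finset.card_le_card_of_injOn (fun w => w.1) ?_ ?_
        · intro w hw
          simp only [hT, Finset.coe_filter, Finset.mem_filter, Finset.mem_univ, true_and,
            Set.mem_setOf_eq] at hw ⊢
          rw [← hw.2]
          exact hA _ _ _ (lit_empty _ _) hw.1
        · intro w hw w' hw' hww
          simp only [Finset.coe_filter, Set.mem_setOf_eq] at hw hw'
          exact Prod.ext hww (hw.2.trans hw'.2.symm)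
      exact_mod_cast h5
    · rw [if_neg hf]
      have h5 : (T.filter fun w => w.2 = f).card ≤ Fintype.card R := by
        rw [← Finset.card_univ]
        refine Finset.card_le_card_of_injOn (fun w => w.1)
          (fun _ _ => Finset.mem_coe.mpr (Finset.mem_univ _)) ?_
        intro w hw w' hw' hww
        simp only [Finset.coe_filter, Set.mem_setOf_eq] at hw hw'
        exact Prod.ext hww (hw.2.trans hw'.2.symm)
      have h6 : ((T.filter fun w => w.2 = f).card : ℝ) ≤ Fintype.card R := by exact_mod_cast h5
      linarith
  have h3 : (T.card : ℝ) ≤ ∑ f : E → Fin D,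
      (1 / 4 * (Fintype.card R : ℝ) + (if good f then 0 else (Fintype.card R : ℝ))) := by
    rw [h1]
    push_cast
    exact Finset.sum_le_sum fun f _ => h2 f
  refine h3.trans ?_
  rw [Finset.sum_add_distrib, Finset.sum_const, Finset.card_univ, nsmul_eq_mul]
  have h4 : ∑ f : E → Fin D, (if good f then (0 : ℝ) else (Fintype.card R : ℝ)) =
      ((univ.filter fun f : E → Fin D => ¬ good f).card : ℝ) * Fintype.card R := by
    rw [← nsmul_eq_mul, ← Finset.sum_const, Finset.sum_filter]
    refine Finset.sum_congr rfl fun f _ => ?_
    by_cases hf : good f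
    · simp [hf]
    · simp [hf]
  rw [h4, Fintype.card_prod]
  push_cast
  rw [show ((Fintype.card (E → Fin D) : ℕ) : ℝ) = (D : ℝ) ^ Fintype.card E from hcard]
  have h5 := mul_le_mul_of_nonneg_right hbad hR.le
  linarith

end thick

end Pool.Agent.V11231.IXF
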