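import Pool.Agent.V11231.IXF.Host

/-! 3SUM-Indexing and unreliable negations. -/

set_option autoImplicit false
set_option linter.unusedSectionVars false
set_option linter.unusedVariables false

namespace Pool.Agent.V11231.IXF

open Finset Pool.Agent.V11231.FLT Pool.Agent.V11231.VCF Pool.Agent.V11231.OMF
open Pool.Agent.H525R4.Mono (Place SumDS IsSum SumSolves)

lemma bad_pair (D : ℕ) (hD : 1 ≤ D) : (1 - 1 / (D : ℝ) ^ 2) ^ (5 * D ^ 2) ≤ 1 / 100 := by
  have hDR : (1 : ℝ) ≤ D := by exact_mod_cast hD
  have hD0 : (0 : ℝ) < D := by linarith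
  have h2 : 1 / (D : ℝ) ^ 2 ≤ 1 := by
    rw [div_le_one (by positivity)]
    exact one_le_pow₀ hDR
  have h5 : (1 - 1 / (D : ℝ) ^ 2) ^ (5 * D ^ 2) ≤ Real.exp (-5) := by
    have h4 : 1 - 1 / (D : ℝ) ^ 2 ≤ Real.exp (-(1 / (D : ℝ) ^ 2)) := by
      have := Real.add_one_le_exp (-(1 / (D : ℝ) ^ 2))
      linarith
    refine (pow_le_pow_left₀ (by linarith) h4 _).trans (le_of_eq ?_)
    rw [← Real.exp_nat_mul]
    congr 1
    push_cast
    field_simp
  refine h5.trans ?_
  rw [Real.exp_neg, ← one_div]
  apply one_div_le_one_div_of_le (by norm_num)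
  have h7 : Real.exp 5 = Real.exp 1 ^ 5 := by
    rw [← Real.exp_nat_mul]
    norm_num
  have he1 : (2.7 : ℝ) ≤ Real.exp 1 := by
    have := Real.exp_one_gt_d9
    linarith
  rw [h7]
  calc (100 : ℝ) ≤ 2.7 ^ 5 := by norm_num
    _ ≤ _ := pow_le_pow_left₀ (by norm_num) he1 5

open Classical in
/-- The derived data structures solve the small problem. -/
theorem derived_solves {U s r n m t D K : ℕ} (hD : 1 ≤ D) (hK : K = 5 * D ^ 2) (hn : 0 < n)
    (hsz : 50 * (m * K) ≤ n * D) (hU : (m ^ 2 + 1) * (2 * K) ≤ U)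
    {R : Type} [Fintype R] [Nonempty R] (C : R → LiteralIndex U s r) (hC : ∀ ρ, (C ρ).Fast t)
    (h1 : ∀ x : Bool × Fin U → Bool, Small n x → ∀ z : ℤ, Represented x z →
      4 / 5 ≤ faultyYesProb C D x z)
    (h2 : ∀ x : Bool × Fin U → Bool, Small n x → ∀ z : ℤ, ¬ Represented x z →
      yesProb C x z ≤ 1 / 4) :
    SumSolves m (m ^ 2) (fun _ : R × (Bool × Fin U → Fin D) =>
      1 / (Fintype.card (R × (Bool × Fin U → Fin D)) : ℝ))
      (fun v => derived K (C v.1) v.2) (1 / 5) t := by
  have hD0 : 0 < D := hD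
  have hDR : (0 : ℝ) < D := by exact_mod_cast hD0
  have hF : Nonempty (Fin D) := ⟨⟨0, hD0⟩⟩
  have hK0 : 0 < K := by rw [hK]; positivity
  have hΩ : (0 : ℝ) < Fintype.card (R × (Bool × Fin U → Fin D)) := by
    exact_mod_cast Fintype.card_pos
  have hR : (0 : ℝ) < Fintype.card R := by exact_mod_cast Fintype.card_pos
  obtain ⟨W, hW⟩ : ∃ W : ℝ, W = (Fintype.card (R × (Bool × Fin U → Fin D)) : ℝ) := ⟨_, rfl⟩
  rw [← hW] at hΩ ⊢
  refine ⟨fun _ => by positivity, ?_, ?_⟩
  · rw [sum_const, card_univ, nsmul_eq_mul, ← hW]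
    field_simp
  intro A B hA hB hA' hB' z
  have hP0 : (0 : ℝ) ≤ (D : ℝ) ^ Fintype.card (Bool × Fin U) := by positivity
  have hout : ∀ v : R × (Bool × Fin U → Fin D), (derived K (C v.1) v.2).out A B z ↔
      (C v.1).accept (qry K z) ((C v.1).mem (literals (mix (posP U K A B) (fun _ => false) v.2)
        (flt v.2))) := by
    intro v
    unfold SumDS.out
    rw [derived_mem]
    exact Iff.rfl
  have hcardA : 50 * (A.card * K) ≤ n * D :=
    (Nat.mul_le_mul_left 50 (Nat.mul_le_mul_right K hA)).trans hsz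
  have hcardB : 50 * (B.card * K) ≤ n * D :=
    (Nat.mul_le_mul_left 50 (Nat.mul_le_mul_right K hB)).trans hsz
  have hsmall := card_not_small (U := U) (K := K) hD0 A B n hcardA hcardB hn
  refine ⟨?_, fun hz => ?_⟩
  · by_cases hz : IsSum A B z
    · -- a positive query
      obtain ⟨x, hx, y, hy, hxy⟩ := hz
      have hz' : IsSum A B z := ⟨x, hx, y, hy, hxy⟩
      obtain ⟨a, rfl⟩ := Int.eq_ofNat_of_zero_le (hA' x hx).1
      obtain ⟨b, rfl⟩ := Int.eq_ofNat_of_zero_le (hB' y hy).1
      have ha := (hA' _ hx).2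
      have hb := (hB' _ hy).2
      have ha1 : a ≤ m ^ 2 := by exact_mod_cast ha
      have hb1 : b ≤ m ^ 2 := by exact_mod_cast hb
      have ha2 : a * (2 * K) + 2 * K ≤ U := by
        calc a * (2 * K) + 2 * K = (a + 1) * (2 * K) := by ring
          _ ≤ (m ^ 2 + 1) * (2 * K) := Nat.mul_le_mul_right _ (by omega)
          _ ≤ U := hU
      have hb2 : b * (2 * K) + 2 * K ≤ U := by
        calc b * (2 * K) + 2 * K = (b + 1) * (2 * K) := by ring
          _ ≤ (m ^ 2 + 1) * (2 * K) := Nat.mul_le_mul_right _ (by omega)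
          _ ≤ U := hU
      have key := thick_acc hD0 (fun (ρ : R) y => (C ρ).accept (qry K z) ((C ρ).mem y))
        (fun ρ y y' hyy h => (C ρ).accept_mono _ _ _ (mem_mono (C ρ) hyy) h) (posP U K A B)
        (fun _ => false) (fun f => Pair K a b f ∧
          Small n (mix (posP U K A B) (fun _ => false) f)) ?_ ?_
      · rw [← hW] at key
        have e1 : ∑ v ∈ univ.filter (fun v : R × (Bool × Fin U → Fin D) =>
            ((derived K (C v.1) v.2).out A B z ↔ IsSum A B z)), 1 / W =
            ((univ.filter fun v : R × (Bool × Fin U → Fin D) =>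
              (C v.1).accept (qry K z) ((C v.1).mem (literals (mix (posP U K A B)
                (fun _ => false) v.2) (flt v.2)))).card : ℝ) / W := by
          rw [sum_const, nsmul_eq_mul, mul_one_div]
          congr 3
          ext v
          rw [mem_filter, mem_filter, hout]
          simp only [hz', iff_true]
        refine le_trans ?_ (le_of_eq e1.symm)
        rw [le_div_iff₀ hΩ]
        refine le_trans ?_ key
        have : (1 / 2 + 1 / 5 : ℝ) ≤ 3 / 4 := by norm_num
        exact mul_le_mul_of_nonneg_right this hΩ.le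
      · have g1 := card_no_pair (U := U) (K := K) hD0 ha2 hb2
        have g2 : (1 - 1 / (D : ℝ) ^ 2) ^ K ≤ 1 / 100 := by
          rw [hK]
          exact bad_pair D hD
        have g3 := mul_le_mul_of_nonneg_right g2 hP0
        have g4 : ((univ.filter fun f : Bool × Fin U → Fin D =>
            ¬ (Pair K a b f ∧ Small n (mix (posP U K A B) (fun _ => false) f))).card : ℝ) ≤
            ((univ.filter fun f : Bool × Fin U → Fin D => ¬ Pair K a b f).card : ℝ) +
            ((univ.filter fun f : Bool × Fin U → Fin D =>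
              ¬ Small n (mix (posP U K A B) (fun _ => false) f)).card : ℝ) := by
          have g5 : (univ.filter fun f : Bool × Fin U → Fin D =>
              ¬ (Pair K a b f ∧ Small n (mix (posP U K A B) (fun _ => false) f))) ⊆
              (univ.filter fun f : Bool × Fin U → Fin D => ¬ Pair K a b f) ∪
              (univ.filter fun f : Bool × Fin U → Fin D =>
                ¬ Small n (mix (posP U K A B) (fun _ => false) f)) := by
            intro f hf
            rw [mem_filter] at hf
            rw [mem_union, mem_filter, mem_filter]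
            by_cases hp : Pair K a b f
            · exact Or.inr ⟨mem_univ _, fun h => hf.2 ⟨hp, h⟩⟩
            · exact Or.inl ⟨mem_univ _, hp⟩
          exact_mod_cast (card_le_card g5).trans (card_union_le _ _)
        refine le_trans (le_of_eq ?_) (g4.trans ?_)
        · congr!
        · linarith
      · rintro f ⟨hp, hs⟩
        have h4 := h1 _ hs _ (rep_of_pair hx hy hxy f hp)
        unfold faultyYesProb at h4
        rw [le_div_iff₀ (by
          rw [Nat.card_eq_fintype_card, ← hW]
          exact hΩ)] at h4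
        rw [Nat.card_eq_fintype_card (α := R × (Bool × Fin U → Fin D))] at h4
        refine h4.trans (le_of_eq ?_)
        congr 1
        rw [Nat.card_eq_fintype_card, Fintype.card_subtype]
        rfl
    · -- a negative query
      have key := thick_rej2 hD0 (fun (ρ : R) y => (C ρ).accept (qry K z) ((C ρ).mem y))
        (fun ρ y y' hyy h => (C ρ).accept_mono _ _ _ (mem_mono (C ρ) hyy) h) (posP U K A B)
        (fun _ => false) (fun f => Small n (mix (posP U K A B) (fun _ => false) f)) ?_ ?_
      · rw [← hW] at key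
        have e1 : ∑ v ∈ univ.filter (fun v : R × (Bool × Fin U → Fin D) =>
            ((derived K (C v.1) v.2).out A B z ↔ IsSum A B z)), 1 / W =
            ((univ.filter fun v : R × (Bool × Fin U → Fin D) =>
              ¬ (C v.1).accept (qry K z) ((C v.1).mem (literals (mix (posP U K A B)
                (fun _ => false) v.2) (flt v.2)))).card : ℝ) / W := by
          rw [sum_const, nsmul_eq_mul, mul_one_div]
          congr 3
          ext v
          rw [mem_filter, mem_filter, hout]
          simp only [hz, iff_false]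
        refine le_trans ?_ (le_of_eq e1.symm)
        rw [le_div_iff₀ hΩ]
        have e2 := Finset.card_filter_add_card_filter_not
          (s := (univ : Finset (R × (Bool × Fin U → Fin D))))
          (p := fun v => (C v.1).accept (qry K z) ((C v.1).mem (literals (mix (posP U K A B)
                (fun _ => false) v.2) (flt v.2))))
        rw [card_univ] at e2
        have e3 : ((univ.filter fun v : R × (Bool × Fin U → Fin D) =>
            (C v.1).accept (qry K z) ((C v.1).mem (literals (mix (posP U K A B)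
                (fun _ => false) v.2) (flt v.2)))).card : ℝ) +
            ((univ.filter fun v : R × (Bool × Fin U → Fin D) =>
              ¬ (C v.1).accept (qry K z) ((C v.1).mem (literals (mix (posP U K A B)
                (fun _ => false) v.2) (flt v.2)))).card : ℝ) = W := by
          rw [hW]
          exact_mod_cast e2
        linarith
      · refine le_trans (le_of_eq ?_) (hsmall.trans ?_)
        · congr!
        · linarith
      · intro f hs
        have h4 := h2 _ hs _ (not_rep hK0 hz f)
        unfold yesProb at h4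
        rw [div_le_iff₀ (by rw [Nat.card_eq_fintype_card]; exact hR),
          Nat.card_eq_fintype_card (α := R)] at h4
        refine le_trans (le_of_eq ?_) h4
        congr 1
        rw [Nat.card_eq_fintype_card, Fintype.card_subtype]
        rfl
  · -- the cost
    have hcost : ∀ v : R × (Bool × Fin U → Fin D),
        ((derived K (C v.1) v.2).cost A B z : ℝ) ≤ t := by
      intro v
      have h3 : (derived K (C v.1) v.2).cost A B z =
          ((C v.1).reads (qry K z) ((C v.1).mem (litP K v.2 A B))).card := by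
        unfold SumDS.cost
        rw [derived_mem]
        rfl
      rw [h3]
      exact_mod_cast hC v.1 _ _ _
    calc ∑ v : R × (Bool × Fin U → Fin D), 1 / W * ((derived K (C v.1) v.2).cost A B z : ℝ)
        ≤ ∑ v : R × (Bool × Fin U → Fin D), 1 / W * (t : ℝ) :=
          sum_le_sum fun v _ => mul_le_mul_of_nonneg_left (hcost v) (by positivity)
      _ = t := by
          rw [sum_const, card_univ, nsmul_eq_mul, ← hW]
          field_simp

/-- **3SUM-Indexing needs reliable negations.** -/
theorem index_fault {n U s r t D : ℕ} (ht : 1 ≤ t) (hD : 1 ≤ D) (hU : n ^ 2 ≤ U)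
    (hn : 10 ^ 6 * D * t * Real.logb 2 (5 * (n + r)) ≤ n)
    {R : Type} [Fintype R] [Nonempty R] (C : R → LiteralIndex U s r) (hC : ∀ ρ, (C ρ).Fast t)
    (h1 : ∀ x : Bool × Fin U → Bool, Small n x → ∀ z : ℤ, Represented x z →
      4 / 5 ≤ faultyYesProb C D x z)
    (h2 : ∀ x : Bool × Fin U → Bool, Small n x → ∀ z : ℤ, ¬ Represented x z →
      yesProb C x z ≤ 1 / 4) :
    (n : ℝ) ^ 2 ≤ 10 ^ 10 * D ^ 2 * s * t * Real.logb 2 (5 * (n + r)) := by
  rcases Nat.eq_zero_or_pos n with hn0 | hn0
  · subst hn0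
    have h0 : 0 ≤ Real.logb 2 (5 * (((0 : ℕ) : ℝ) + r)) := by
      rcases Nat.eq_zero_or_pos r with hr | hr
      · subst hr
        simp
      · apply Real.logb_nonneg (by norm_num)
        have : (1 : ℝ) ≤ r := by exact_mod_cast hr
        push_cast
        linarith
    have : (0 : ℝ) ≤ 10 ^ 10 * D ^ 2 * s * t * Real.logb 2 (5 * (((0 : ℕ) : ℝ) + r)) := by
      positivity
    simpa using this
  have hnR : (1 : ℝ) ≤ n := by exact_mod_cast hn0
  have hr0 : (0 : ℝ) ≤ r := by positivity
  have hDR : (1 : ℝ) ≤ D := by exact_mod_cast hD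
  have htR : (1 : ℝ) ≤ t := by exact_mod_cast ht
  have hDpos : (0 : ℝ) < D := by linarith
  obtain ⟨lg, hlg⟩ : ∃ lg, lg = Real.logb 2 (5 * ((n : ℝ) + r)) := ⟨_, rfl⟩
  rw [← hlg] at hn ⊢
  have hlg1 : 1 ≤ lg := by
    rw [hlg, Real.le_logb_iff_rpow_le (by norm_num) (by positivity), Real.rpow_one]
    linarith
  obtain ⟨m, hm⟩ : ∃ m, m = n / (250 * D) := ⟨_, rfl⟩
  have hm1 : m * (250 * D) ≤ n := by
    rw [hm]
    exact Nat.div_mul_le_self n (250 * D)
  have hm2 : (n : ℝ) < ((m : ℝ) + 1) * (250 * D) := by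
    have h6 : n < (m + 1) * (250 * D) := by
      have h7 := Nat.div_add_mod n (250 * D)
      have h8 := Nat.mod_lt n (by omega : 250 * D > 0)
      rw [← hm] at h7
      calc n = 250 * D * m + n % (250 * D) := h7.symm
        _ < 250 * D * m + 250 * D := by omega
        _ = _ := by ring
    exact_mod_cast h6
  have htl : (1 : ℝ) ≤ t * lg := one_le_mul_of_one_le_of_one_le htR hlg1
  have hm3 : 4000 * (t * lg) ≤ (m : ℝ) + 1 := by
    have h3 : 4000 * (t * lg) * (250 * D) < ((m : ℝ) + 1) * (250 * D) := by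
      refine lt_of_le_of_lt (le_trans (le_of_eq ?_) hn) hm2
      ring
    exact (lt_of_mul_lt_mul_right h3 (by positivity)).le
  have hm4 : (1 : ℝ) ≤ m := by linarith
  have hm5 : 1 ≤ m := by exact_mod_cast hm4
  have hmn : m ≤ n := by
    calc m ≤ m * (250 * D) := Nat.le_mul_of_pos_right _ (by omega)
      _ ≤ n := hm1
  have hsz : 50 * (m * (5 * D ^ 2)) ≤ n * D := by
    calc 50 * (m * (5 * D ^ 2)) = (m * (250 * D)) * D := by ring
      _ ≤ n * D := Nat.mul_le_mul_right D hm1
  have hU' : (m ^ 2 + 1) * (2 * (5 * D ^ 2)) ≤ U := by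
    refine le_trans ?_ hU
    calc (m ^ 2 + 1) * (2 * (5 * D ^ 2)) ≤ (m ^ 2 + m ^ 2) * (2 * (5 * D ^ 2)) := by
          refine Nat.mul_le_mul_right _ ?_
          have : 1 ≤ m ^ 2 := Nat.one_le_pow _ _ hm5
          omega
      _ = 20 * (m ^ 2 * D ^ 2) := by ring
      _ ≤ 62500 * (m ^ 2 * D ^ 2) := Nat.mul_le_mul_right _ (by norm_num)
      _ = (m * (250 * D)) ^ 2 := by ring
      _ ≤ n ^ 2 := Nat.pow_le_pow_left hm1 2
  have hsol := derived_solves (s := s) (r := r) hD rfl hn0 hsz hU' C hC h1 h2
  have hlgm : Real.logb 2 (((m : ℝ) + r) / (1 / 5)) ≤ lg := by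
    rw [hlg]
    apply Real.logb_le_logb_of_le (by norm_num) (by positivity)
    have : (m : ℝ) ≤ n := by exact_mod_cast hmn
    have h3 : ((m : ℝ) + r) / (1 / 5) = 5 * (m + r) := by ring
    rw [h3]
    linarith
  have key := Pool.Agent.H525R4.Mono.sum_lower (n := m) (N := m ^ 2) (s := s) (r := r)
    (δ := 1 / 5) (t := (t : ℝ)) (by norm_num) (by norm_num) htR (by
      have h3 : 400 * (t : ℝ) * Real.logb 2 (((m : ℝ) + r) / (1 / 5)) ≤ 400 * t * lg :=
        mul_le_mul_of_nonneg_left hlgm (by positivity)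
      linarith) le_rfl _ _ hsol
  have h3 : (1 / 5 : ℝ) ^ 2 * (m : ℝ) ^ 2 ≤ 1600 * s * t * lg :=
    key.trans (mul_le_mul_of_nonneg_left hlgm (by positivity))
  have h4 : (n : ℝ) ≤ 500 * D * m := by
    have h8 : (m : ℝ) + 1 ≤ 2 * m := by linarith
    calc (n : ℝ) ≤ ((m : ℝ) + 1) * (250 * D) := hm2.le
      _ ≤ (2 * m) * (250 * D) := mul_le_mul_of_nonneg_right h8 (by positivity)
      _ = _ := by ring
  calc (n : ℝ) ^ 2 ≤ (500 * D * m) ^ 2 := pow_le_pow_left₀ (by linarith) h4 2
    _ = 6250000 * D ^ 2 * ((1 / 5 : ℝ) ^ 2 * (m : ℝ) ^ 2) := by ring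
    _ ≤ 6250000 * D ^ 2 * (1600 * s * t * lg) := mul_le_mul_of_nonneg_left h3 (by positivity)
    _ = _ := by ring

end Pool.Agent.V11231.IXF
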