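import Pool.Agent.V11231.IXF.Defs

/-! Pairs of sets hidden in the faulty positions. -/

set_option autoImplicit false
set_option linter.unusedSectionVars false
set_option linter.unusedVariables false

namespace Pool.Agent.V11231.IXF

open Finset Pool.Agent.V11231.FLT Pool.Agent.V11231.VCF Pool.Agent.V11231.SMF
open Pool.Agent.H525R4.Mono (Place SumDS IsSum SumSolves)

variable {U D K s r : ℕ}

/-- the positions in the classes of the elements of `A` and of `B` -/
def posP (U K : ℕ) (A B : Finset ℤ) : Set (Bool × Fin U) :=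
  {e | (((e.2 : ℕ) / (2 * K) : ℕ) : ℤ) ∈ (if e.1 = true then B else A) ∧
    (e.2 : ℕ) % (2 * K) < K}

lemma posP_mono {A A' B B' : Finset ℤ} (hA : A ⊆ A') (hB : B ⊆ B') :
    posP U K A B ⊆ posP U K A' B' := by
  rintro ⟨a, e⟩ ⟨h1, h2⟩
  refine ⟨?_, h2⟩
  cases a
  · exact hA h1
  · exact hB h1

/-- the values of the literals -/
noncomputable def litP (K : ℕ) (f : Bool × Fin U → Fin D) (A B : Finset ℤ) :
    (Bool × Fin U) × Bool → Bool :=
  literals (mix (posP U K A B) (fun _ => false) f) (flt f)

lemma litP_mono (f : Bool × Fin U → Fin D) {A A' B B' : Finset ℤ} (hA : A ⊆ A') (hB : B ⊆ B') :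
    litP K f A B ≤ litP K f A' B' := lit_mono (posP_mono hA hB) f

lemma litP_left (f : Bool × Fin U → Fin D) (A B B' : Finset ℤ) (e : Fin U) (b : Bool) :
    litP K f A B ((false, e), b) = litP K f A B' ((false, e), b) :=
  lit_congr f _ b Iff.rfl

lemma litP_right (f : Bool × Fin U → Fin D) (A A' B : Finset ℤ) (e : Fin U) (b : Bool) :
    litP K f A B ((true, e), b) = litP K f A' B ((true, e), b) :=
  lit_congr f _ b Iff.rfl

/-- the query for the large sets -/
def qry (K : ℕ) (z : ℤ) : ℤ := 2 * K * z + (K - 1)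

/-- the monotone data structure for the small sets -/
noncomputable def derived (K : ℕ) (C : LiteralIndex U s r) (f : Bool × Fin U → Fin D) :
    SumDS s r where
  cell c A B := C.cell c (litP K f A B)
  cell_mono c A A' B B' hA hB := C.cell_mono c (litP_mono f hA hB)
  free1 c A := C.free1 c fun p => litP K f A ∅ ((false, p.1), p.2)
  free1_mono c A A' hA := C.free1_mono c fun p => litP_mono f hA (Finset.Subset.refl _) _
  free2 c B := C.free2 c fun p => litP K f ∅ B ((true, p.1), p.2)
  free2_mono c B B' hB := C.free2_mono c fun p => litP_mono f (Finset.Subset.refl _) hB _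
  reads z M := C.reads (qry K z) M
  accept z M := C.accept (qry K z) M
  accept_mono z M M' h := C.accept_mono _ M M' h
  accept_reads z M M' h := C.accept_reads _ M M' h

lemma derived_mem (C : LiteralIndex U s r) (f : Bool × Fin U → Fin D) (A B : Finset ℤ) :
    (derived K C f).mem A B = C.mem (litP K f A B) := by
  funext c
  rcases c with c | c | c
  · rfl
  · show C.free1 c _ = C.free1 c _
    congr 1
  · show C.free2 c _ = C.free2 c _
    congr 1

/-- a pair of faulty positions with the right sum -/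
def Pair (K a b : ℕ) (f : Bool × Fin U → Fin D) : Prop :=
  ∃ i j : ℕ, i + j + 1 = K ∧ ∃ x y : Fin U, (x : ℕ) = a * (2 * K) + i ∧
    (y : ℕ) = b * (2 * K) + j ∧ (f (false, x) : ℕ) = 0 ∧ (f (true, y) : ℕ) = 0

lemma rep_of_pair {A B : Finset ℤ} {a b : ℕ} (ha : (a : ℤ) ∈ A) (hb : (b : ℤ) ∈ B) {z : ℤ}
    (hz : (a : ℤ) + b = z) (f : Bool × Fin U → Fin D) (hf : Pair K a b f) :
    Represented (mix (posP U K A B) (fun _ => false) f) (qry K z) := by
  obtain ⟨i, j, hij, x, y, hx, hy, f1, f2⟩ := hf
  have key : ∀ (w : Fin U) (d k : ℕ), (w : ℕ) = d * (2 * K) + k → k < K →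
      (w : ℕ) / (2 * K) = d ∧ (w : ℕ) % (2 * K) = k := by
    intro w d k hw hk
    rw [hw, Nat.mul_comm d]
    constructor
    · rw [Nat.mul_add_div (by omega), Nat.div_eq_of_lt (by omega), Nat.add_zero]
    · rw [Nat.mul_add_mod, Nat.mod_eq_of_lt (by omega)]
  obtain ⟨x1, x2⟩ := key x a i hx (by omega)
  obtain ⟨y1, y2⟩ := key y b j hy (by omega)
  refine ⟨x, y, ?_, ?_, ?_⟩
  · rw [mix_eq_true]
    refine ⟨⟨?_, ?_⟩, f1⟩
    · show ((((x : ℕ) / (2 * K) : ℕ) : ℤ)) ∈ A
      rw [x1]
      exact ha
    · show (x : ℕ) % (2 * K) < K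
      omega
  · rw [mix_eq_true]
    refine ⟨⟨?_, ?_⟩, f2⟩
    · show ((((y : ℕ) / (2 * K) : ℕ) : ℤ)) ∈ B
      rw [y1]
      exact hb
    · show (y : ℕ) % (2 * K) < K
      omega
  · unfold qry
    rw [← hz, hx, hy]
    have : (K : ℤ) = i + j + 1 := by exact_mod_cast hij.symm
    push_cast
    rw [this]
    ring

lemma not_rep (hK : 0 < K) {A B : Finset ℤ} {z : ℤ} (hz : ¬ IsSum A B z)
    (f : Bool × Fin U → Fin D) :
    ¬ Represented (mix (posP U K A B) (fun _ => false) f) (qry K z) := by
  rintro ⟨a, b, ha, hb, hab⟩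
  rw [mix_eq_true] at ha hb
  obtain ⟨⟨ha1, ha2⟩, -⟩ := ha
  obtain ⟨⟨hb1, hb2⟩, -⟩ := hb
  apply hz
  refine ⟨_, ha1, _, hb1, ?_⟩
  unfold qry at hab
  simp only at ha2 hb2
  have h1 := Nat.div_add_mod (a : ℕ) (2 * K)
  have h2 := Nat.div_add_mod (b : ℕ) (2 * K)
  obtain ⟨p, hp⟩ : ∃ p, p = (a : ℕ) / (2 * K) := ⟨_, rfl⟩
  obtain ⟨q, hq⟩ : ∃ q, q = (b : ℕ) / (2 * K) := ⟨_, rfl⟩
  obtain ⟨i, hi⟩ : ∃ i, i = (a : ℕ) % (2 * K) := ⟨_, rfl⟩
  obtain ⟨j, hj⟩ : ∃ j, j = (b : ℕ) % (2 * K) := ⟨_, rfl⟩
  rw [← hp, ← hi] at h1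
  rw [← hq, ← hj] at h2
  rw [← hi] at ha2
  rw [← hj] at hb2
  rw [← hp, ← hq]
  rw [← h1, ← h2] at hab
  push_cast at hab
  have hK' : (0 : ℤ) < 2 * K := by exact_mod_cast (by omega : 0 < 2 * K)
  have h3 : (2 * (K : ℤ)) * ((p : ℤ) + q - z) = K - 1 - i - j := by linarith
  have hi' : (i : ℤ) < K := by exact_mod_cast ha2
  have hj' : (j : ℤ) < K := by exact_mod_cast hb2
  have hi0 : (0 : ℤ) ≤ i := Int.natCast_nonneg i
  have hj0 : (0 : ℤ) ≤ j := Int.natCast_nonneg j
  have h4 : (p : ℤ) + q - z = 0 := by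
    by_contra hne
    rcases lt_or_gt_of_ne hne with h5 | h5
    · have h6 : (p : ℤ) + q - z ≤ -1 := by omega
      have h7 : (2 * (K : ℤ)) * ((p : ℤ) + q - z) ≤ (2 * K) * (-1) :=
        mul_le_mul_of_nonneg_left h6 hK'.le
      linarith
    · have h6 : 1 ≤ (p : ℤ) + q - z := by omega
      have h7 : (2 * (K : ℤ)) * 1 ≤ (2 * (K : ℤ)) * ((p : ℤ) + q - z) :=
        mul_le_mul_of_nonneg_left h6 hK'.le
      linarith
  show (p : ℤ) + q = z
  linarith

open Classical in
/-- most functions have a pair -/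
lemma card_no_pair (hD : 0 < D) {a b : ℕ} (ha : a * (2 * K) + 2 * K ≤ U)
    (hb : b * (2 * K) + 2 * K ≤ U) :
    ((univ.filter fun f : Bool × Fin U → Fin D => ¬ Pair K a b f).card : ℝ) ≤
      (1 - 1 / (D : ℝ) ^ 2) ^ K * (D : ℝ) ^ Fintype.card (Bool × Fin U) := by
  have h3 := card_pairs hD (fun f : Bool × Fin U → Fin D => True)
    (fun i : Fin K => ((false, ⟨a * (2 * K) + i, by have := i.isLt; omega⟩) : Bool × Fin U))
    (fun i : Fin K => ((true, ⟨b * (2 * K) + (K - 1 - i), by have := i.isLt; omega⟩) :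
      Bool × Fin U))
    (by
      intro i j h
      simp at h)
    (by
      intro i i' h
      have h4 := Fin.mk.inj (Prod.mk.inj h).2
      exact Fin.ext (by omega))
    (by
      intro i i' h
      have h4 := Fin.mk.inj (Prod.mk.inj h).2
      have h5 := i.isLt
      have h6 := i'.isLt
      exact Fin.ext (by omega))
    (fun _ _ _ => Iff.rfl) (fun _ _ _ => Iff.rfl) (univ : Finset (Fin K))
  rw [card_univ, Fintype.card_fin] at h3
  have h4 : ((univ.filter fun f : Bool × Fin U → Fin D => True).card : ℝ) =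
      (D : ℝ) ^ Fintype.card (Bool × Fin U) := by
    rw [filter_true, card_univ, Fintype.card_fun, Fintype.card_fin]
    push_cast
    rfl
  have h5 : (univ.filter fun f : Bool × Fin U → Fin D => ¬ Pair K a b f).card ≤
      (univ.filter fun f : Bool × Fin U → Fin D => True ∧ ∀ i ∈ (univ : Finset (Fin K)),
        ¬ ((f (false, ⟨a * (2 * K) + i, by have := i.isLt; omega⟩) : ℕ) = 0 ∧
          (f (true, ⟨b * (2 * K) + (K - 1 - i), by have := i.isLt; omega⟩) : ℕ) = 0)).card := by
    refine card_le_card fun f hf => ?_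
    rw [mem_filter] at hf ⊢
    refine ⟨mem_univ _, trivial, fun i _ h => hf.2 ?_⟩
    have := i.isLt
    exact ⟨i, K - 1 - i, by omega, _, _, rfl, rfl, h.1, h.2⟩
  have h6 : ((univ.filter fun f : Bool × Fin U → Fin D => ¬ Pair K a b f).card : ℝ) ≤
      ((univ.filter fun f : Bool × Fin U → Fin D => True ∧ ∀ i ∈ (univ : Finset (Fin K)),
        ¬ ((f (false, ⟨a * (2 * K) + i, by have := i.isLt; omega⟩) : ℕ) = 0 ∧
          (f (true, ⟨b * (2 * K) + (K - 1 - i), by have := i.isLt; omega⟩) : ℕ) = 0)).card : ℝ) := by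
    exact_mod_cast h5
  refine h6.trans (le_of_eq ?_)
  refine Eq.trans (Eq.trans ?_ h3) ?_
  · congr!
  · rw [← h4]
    congr!

open Classical in
/-- the host sets are small for most functions -/
lemma card_not_small (hD : 0 < D) (A B : Finset ℤ) (N : ℕ) (hA : 50 * (A.card * K) ≤ N * D)
    (hB : 50 * (B.card * K) ≤ N * D) (hNpos : 0 < N) :
    ((univ.filter fun f : Bool × Fin U → Fin D =>
      ¬ Small N (mix (posP U K A B) (fun _ => false) f)).card : ℝ) ≤
      2 / 50 * (D : ℝ) ^ Fintype.card (Bool × Fin U) := by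
  have hDR : (0 : ℝ) < D := by exact_mod_cast hD
  have hNR : (0 : ℝ) < N := by exact_mod_cast hNpos
  have one : ∀ (a : Bool) (S : Finset ℤ), S = (if a = true then B else A) →
      50 * (S.card * K) ≤ N * D →
      ((univ.filter fun f : Bool × Fin U → Fin D => N < (univ.filter fun e : Fin U =>
        mix (posP U K A B) (fun _ => false) f (a, e) = true).card).card : ℝ) ≤
      1 / 50 * (D : ℝ) ^ Fintype.card (Bool × Fin U) := by
    intro a S hS hN
    set T : Finset (Bool × Fin U) := univ.filter fun e => e ∈ posP U K A B ∧ e.1 = a with hT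
    have hsz : ∀ f : Bool × Fin U → Fin D, (univ.filter fun e : Fin U =>
        mix (posP U K A B) (fun _ => false) f (a, e) = true).card =
        (T.filter fun e => (f e : ℕ) = 0).card := by
      intro f
      refine card_bij (fun e _ => (a, e)) ?_ ?_ ?_
      · intro e he
        rw [mem_filter, mix_eq_true] at he
        rw [mem_filter, hT, mem_filter]
        exact ⟨⟨mem_univ _, he.2.1, rfl⟩, he.2.2⟩
      · intro e _ e' _ h
        exact (Prod.mk.inj h).2
      · rintro ⟨a', e⟩ he
        rw [mem_filter, hT, mem_filter] at he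
        obtain ⟨⟨-, h1, h2⟩, h3⟩ := he
        simp only at h2
        subst h2
        refine ⟨e, ?_, rfl⟩
        rw [mem_filter, mix_eq_true]
        exact ⟨mem_univ _, h1, h3⟩
    have hBc : T.card ≤ S.card * K := by
      rcases Nat.eq_zero_or_pos K with hK | hK
      · have h1 : T = ∅ := by
          rw [hT, filter_eq_empty_iff]
          rintro e _ ⟨⟨_, h2⟩, _⟩
          omega
        rw [h1]
        simp
      have h1 : T.card ≤ (S ×ˢ range K).card := by
        refine card_le_card_of_injOn
          (fun e => ((((e.2 : ℕ) / (2 * K) : ℕ) : ℤ), (e.2 : ℕ) % (2 * K))) ?_ ?_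
        · rintro ⟨a', e⟩ he
          rw [mem_coe, hT, mem_filter] at he
          obtain ⟨-, ⟨h1, h2⟩, h3⟩ := he
          simp only at h3
          subst h3
          rw [mem_coe, mem_product, mem_range, hS]
          exact ⟨h1, h2⟩
        · rintro ⟨a', e⟩ he ⟨a'', e'⟩ he' hee
          rw [mem_coe, hT, mem_filter] at he he'
          simp only [Prod.mk.injEq, Nat.cast_inj] at hee
          have h2 := Nat.div_add_mod (e : ℕ) (2 * K)
          have h3 := Nat.div_add_mod (e' : ℕ) (2 * K)
          rw [hee.1, hee.2] at h2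
          have h4 : e = e' := Fin.ext (by omega)
          have h5 : a' = a'' := he.2.2.trans he'.2.2.symm
          rw [h4, h5]
      rwa [card_product, card_range] at h1
    have h1 := card_many hD T N
    have h2 : (univ.filter fun f : Bool × Fin U → Fin D => N < (univ.filter fun e : Fin U =>
        mix (posP U K A B) (fun _ => false) f (a, e) = true).card) =
        univ.filter fun f : Bool × Fin U → Fin D =>
          N < (T.filter fun e => (f e : ℕ) = 0).card := by
      ext f
      rw [mem_filter, mem_filter, hsz]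
    rw [h2]
    have h3 : 50 * (T.card : ℝ) ≤ N * D := by
      have h4 : 50 * T.card ≤ N * D := (Nat.mul_le_mul_left 50 hBc).trans hN
      exact_mod_cast h4
    have h5 : (0 : ℝ) ≤ (D : ℝ) ^ Fintype.card (Bool × Fin U) := by positivity
    have h6 : (N : ℝ) * D * ((univ.filter fun f : Bool × Fin U → Fin D =>
        N < (T.filter fun e => (f e : ℕ) = 0).card).card : ℝ) ≤
        (N : ℝ) * D * (1 / 50 * (D : ℝ) ^ Fintype.card (Bool × Fin U)) := by
      refine h1.trans ?_
      have h7 := mul_le_mul_of_nonneg_right h3 h5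
      linarith
    exact le_of_mul_le_mul_left h6 (by positivity)
  have g1 := one false A (by simp) hA
  have g2 := one true B (by simp) hB
  have g3 : (univ.filter fun f : Bool × Fin U → Fin D =>
      ¬ Small N (mix (posP U K A B) (fun _ => false) f)) ⊆
      (univ.filter fun f : Bool × Fin U → Fin D => N < (univ.filter fun e : Fin U =>
        mix (posP U K A B) (fun _ => false) f (false, e) = true).card) ∪
      (univ.filter fun f : Bool × Fin U → Fin D => N < (univ.filter fun e : Fin U =>
        mix (posP U K A B) (fun _ => false) f (true, e) = true).card) := by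
    intro f hf
    rw [mem_filter] at hf
    rw [mem_union, mem_filter, mem_filter]
    by_contra hcon
    push Not at hcon
    apply hf.2
    intro a
    cases a
    · exact hcon.1 (mem_univ _)
    · exact hcon.2 (mem_univ _)
  have g4 : ((univ.filter fun f : Bool × Fin U → Fin D =>
      ¬ Small N (mix (posP U K A B) (fun _ => false) f)).card : ℝ) ≤
      ((univ.filter fun f : Bool × Fin U → Fin D => N < (univ.filter fun e : Fin U =>
        mix (posP U K A B) (fun _ => false) f (false, e) = true).card).card : ℝ) +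
      ((univ.filter fun f : Bool × Fin U → Fin D => N < (univ.filter fun e : Fin U =>
        mix (posP U K A B) (fun _ => false) f (true, e) = true).card).card : ℝ) := by
    exact_mod_cast (card_le_card g3).trans (card_union_le _ _)
  linarith

end Pool.Agent.V11231.IXF
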